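import Mathlib
import Pool.Agent.Y522.FA.Stm

/-!
# Project FA (helper522): additivity of `∫ dF ∧ dg` and `StZero`
-/

set_option autoImplicit false

open Set Filter Topology Metric Function MeasureTheory
open scoped Manifold ContDiff Real NNReal

noncomputable section

namespace Pool.Agent.Y944.FA

open Pool.Agent.Y522.FA

/-- product of bounded Lipschitz functions -/
theorem lip_mul {X : Type*} [PseudoMetricSpace X] {F G : X → ℝ} {K L A B : ℝ≥0}
    (hF : LipschitzWith K F) (hG : LipschitzWith L G) (hA : ∀ x, |F x| ≤ A) (hB : ∀ x, |G x| ≤ B) :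
    LipschitzWith (A * L + B * K) (fun x => F x * G x) := by
  refine LipschitzWith.of_dist_le_mul fun x y => ?_
  have h1 := hF.dist_le_mul x y
  have h2 := hG.dist_le_mul x y
  rw [Real.dist_eq] at h1 h2 ⊢
  have e : F x * G x - F y * G y = F x * (G x - G y) + (F x - F y) * G y := by ring
  rw [e]
  calc |F x * (G x - G y) + (F x - F y) * G y|
      ≤ |F x| * |G x - G y| + |F x - F y| * |G y| := by
        rw [← abs_mul, ← abs_mul]; exact abs_add_le _ _
    _ ≤ A * (L * dist x y) + (K * dist x y) * B := by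
        gcongr
        · exact hA x
        · exact hB y
    _ = (↑(A * L + B * K) : ℝ) * dist x y := by push_cast; ring

/-- a Lipschitz function on a compact space is bounded -/
theorem lip_bdd {X : Type*} [PseudoMetricSpace X] [CompactSpace X] {F : X → ℝ} {K : ℝ≥0}
    (hF : LipschitzWith K F) : ∃ A : ℝ≥0, ∀ x, |F x| ≤ A := by
  obtain ⟨C, hC⟩ := (isCompact_univ (X := X)).exists_bound_of_continuousOn
    hF.continuous.continuousOn
  refine ⟨⟨max C 0, le_max_right _ _⟩, fun x => ?_⟩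
  have := hC x (mem_univ x)
  rw [Real.norm_eq_abs] at this
  exact this.trans (le_max_left _ _)

section

variable {M : Type} [MetricSpace M] [MeasurableSpace M] {μ : Measure M} {b : Circ → M}

theorem dif_add (S : Surf M μ b) {F F' : M → ℝ} {x : M} (h : S.Dif F x) (h' : S.Dif F' x) :
    S.Dif (fun y => F y + F' y) x := by
  intro i hi
  obtain ⟨h1, h2⟩ := h i hi
  obtain ⟨h3, h4⟩ := h' i hi
  exact ⟨h1, h2.add h4⟩

theorem dc_add (S : Surf M μ b) {F F' : M → ℝ} {x : M} (h : S.Dif F x) (h' : S.Dif F' x)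
    (i : Fin S.N) (hi : x ∈ S.U i) :
    S.dc i (fun y => F y + F' y) x = S.dc i F x + S.dc i F' x := by
  obtain ⟨h1, h2⟩ := h i hi
  obtain ⟨h3, h4⟩ := h' i hi
  exact fderiv_add h2 h4

theorem jac_zero (S : Surf M μ b) (g : M → ℝ) (x : M) : S.jac (fun _ => 0) g x = 0 := by
  unfold Surf.jac
  refine Finset.sum_eq_zero fun i _ => ?_
  have : (fun x => cr (S.dc i (fun _ => 0) x) (S.dc i g x) / (S.A i (S.φ i x)).det) =
      fun _ => 0 := by
    ext x
    have : S.dc i (fun _ => 0) x = 0 := by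
      unfold Surf.dc
      exact fderiv_const_apply 0
    rw [this]
    simp [cr]
  rw [this]
  simp

/-- additivity in the first function -/
theorem jac_add_ae (hJ : StJac) (hR : StRad) [BorelSpace M] [CompactSpace M] (S : Surf M μ b)
    {F F' g : M → ℝ} {K K' L : ℝ≥0} (hF : LipschitzWith K F) (hF' : LipschitzWith K' F')
    (hg : LipschitzWith L g) :
    ∀ᵐ x ∂μ, S.jac (fun y => F y + F' y) g x = S.jac F g x + S.jac F' g x := by
  filter_upwards [hR M μ b S F K hF, hR M μ b S F' K' hF', hR M μ b S g L hg] with x h1 h2 h3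
  obtain ⟨i, hi⟩ := S.cover x
  have hs : LipschitzWith (K + K') (fun y => F y + F' y) := hF.add hF'
  rw [(hJ M μ b S _ g _ _ hs hg).1 x (dif_add S h1 h2) h3 i hi,
    (hJ M μ b S F g _ _ hF hg).1 x h1 h3 i hi, (hJ M μ b S F' g _ _ hF' hg).1 x h2 h3 i hi,
    dc_add S h1 h2 i hi, ← add_div]
  congr 1
  simp only [cr, add_apply]
  ring

theorem int_add (hJ : StJac) (hR : StRad) [BorelSpace M] [CompactSpace M] (S : Surf M μ b)
    {F F' g : M → ℝ} {K K' L : ℝ≥0} (hF : LipschitzWith K F) (hF' : LipschitzWith K' F')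
    (hg : LipschitzWith L g) :
    ∫ x, S.jac (fun y => F y + F' y) g x ∂μ = ∫ x, S.jac F g x ∂μ + ∫ x, S.jac F' g x ∂μ := by
  rw [integral_congr_ae (jac_add_ae hJ hR S hF hF' hg),
    integral_add (hJ M μ b S F g _ _ hF hg).2 (hJ M μ b S F' g _ _ hF' hg).2]

/-- finite sums in the first function -/
theorem int_sum (hJ : StJac) (hR : StRad) [BorelSpace M] [CompactSpace M] (S : Surf M μ b)
    {ι : Type*} (s : Finset ι) (F : ι → M → ℝ) {g : M → ℝ} {L : ℝ≥0}
    (hF : ∀ i ∈ s, ∃ K, LipschitzWith K (F i)) (hg : LipschitzWith L g) :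
    (∃ K, LipschitzWith K (fun x => ∑ i ∈ s, F i x)) ∧
      ∫ x, S.jac (fun y => ∑ i ∈ s, F i y) g x ∂μ = ∑ i ∈ s, ∫ x, S.jac (F i) g x ∂μ := by
  classical
  induction s using Finset.induction_on with
  | empty =>
    refine ⟨⟨0, ?_⟩, ?_⟩
    · simp only [Finset.sum_empty]
      exact LipschitzWith.const 0
    · simp only [Finset.sum_empty, jac_zero, integral_zero]
  | insert a s ha ih =>
    obtain ⟨⟨K, hK⟩, h2⟩ := ih fun i hi => hF i (Finset.mem_insert_of_mem hi)
    obtain ⟨K', hK'⟩ := hF a (Finset.mem_insert_self a s)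
    refine ⟨⟨K' + K, ?_⟩, ?_⟩
    · simp only [Finset.sum_insert ha]
      exact hK'.add hK
    · simp only [Finset.sum_insert ha]
      rw [int_add hJ hR S hK' hK hg, h2]

end

theorem stZero (hC : StChart) (hP : StPart) (hJ : StJac) (hR : StRad) : StZero := by
  intro M _ _ _ _ μ b S F g K K' hF hg h0
  obtain ⟨ρ, R, C, h1, h2, h3, h4, h5, h6⟩ := hP M S.N S.U S.openU S.cover
  obtain ⟨A, hA⟩ := lip_bdd hF
  have hb : ∀ i x, |ρ i x| ≤ (1 : ℝ≥0) := fun i x => by
    rw [abs_of_nonneg (h2 i x).1]; exact_mod_cast (h2 i x).2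
  have hL : ∀ i, LipschitzWith (1 * K + A * R) (fun x => ρ i x * F x) := fun i =>
    lip_mul (h1 i) hF (hb i) hA
  have hsum : F = fun y => ∑ i, ρ i y * F y := by
    ext y
    rw [← Finset.sum_mul, h3 y, one_mul]
  have key := (int_sum hJ hR S Finset.univ (fun i y => ρ i y * F y)
    (fun i _ => ⟨_, hL i⟩) hg).2
  rw [← hsum] at key
  rw [key]
  refine Finset.sum_eq_zero fun i _ => ?_
  rw [hC M μ b S i _ g _ K' (hL i) hg (C i) (h4 i) (h5 i) (fun x hx => by
    simp only [h6 i x hx, zero_mul])]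
  have : (fun t : ℝ => (S.T i).indicator (fun z => ρ i (S.ψ i z) * F (S.ψ i z)) (bp t) *
      deriv (fun t => g (S.ψ i (bp t))) t) = fun _ => 0 := by
    ext t
    by_cases ht : bp t ∈ S.T i
    · rw [indicator_of_mem ht]
      obtain ⟨x, hx, hxt⟩ := ht
      have e1 : S.ψ i (bp t) = x := by rw [← hxt]; exact S.left i x hx
      have e2 : (S.φ i x) 0 = 0 := by
        rw [hxt]
        simp [bp, bv]
      obtain ⟨u, hu⟩ := (S.bd i x hx).1 e2
      rw [e1, ← hu, h0 u]
      simp
    · rw [indicator_of_notMem ht]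
      simp
  rw [this]
  simp

end Pool.Agent.Y944.FA
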