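import Mathlib
import Pool.Agent.Y522.FA.Stm
import Pool.Agent.Y944.FA.Zero

/-!
# Project FA (helper522): Stokes' theorem on the surface (`StStokes`)
-/

set_option autoImplicit false

open Set Filter Topology Metric Function MeasureTheory
open scoped Manifold ContDiff Real NNReal

noncomputable section

namespace Pool.Agent.Y944.FA

open Pool.Agent.Y522.FA

/-- extension of Lipschitz functions from the boundary -/
theorem ext_circ {M : Type} [MetricSpace M] (b : Circ → M)
    (hb : ∀ s t, dist s t ≤ dist (b s) (b t)) (α : Circ → ℝ) (K : ℝ≥0) (hα : LipschitzWith K α) :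
    ∃ F : M → ℝ, LipschitzWith K F ∧ ∀ t, F (b t) = α t := by
  have hinj : Injective b := fun s t h => by
    have := hb s t
    rw [h, dist_self] at this
    exact dist_le_zero.1 this
  have h1 : LipschitzOnWith K (fun x => α (invFun b x)) (range b) := by
    refine LipschitzOnWith.of_dist_le_mul ?_
    rintro _ ⟨s, rfl⟩ _ ⟨t, rfl⟩
    simp only [leftInverse_invFun hinj s, leftInverse_invFun hinj t]
    exact (hα.dist_le_mul s t).trans (by gcongr; exact hb s t)
  obtain ⟨F, h2, h3⟩ := h1.extend_real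
  refine ⟨F, h2, fun t => ?_⟩
  rw [← h3 (mem_range_self t)]
  simp only [leftInverse_invFun hinj t]

theorem coe_dist_le (s t : ℝ) : dist (s : Circ) (t : Circ) ≤ |s - t| := by
  rw [dist_eq_norm, ← AddCircle.coe_sub]
  rw [AddCircle.norm_eq]
  have h := round_le ((2 * π)⁻¹ * (s - t)) 0
  have hp : (0 : ℝ) < 2 * π := by positivity
  have e : (s - t) - round ((2 * π)⁻¹ * (s - t)) * (2 * π) =
      ((2 * π)⁻¹ * (s - t) - round ((2 * π)⁻¹ * (s - t))) * (2 * π) := by
    field_simp
  rw [e, abs_mul, abs_of_pos hp]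
  calc |(2 * π)⁻¹ * (s - t) - round ((2 * π)⁻¹ * (s - t))| * (2 * π)
      ≤ |(2 * π)⁻¹ * (s - t) - ((0 : ℤ) : ℝ)| * (2 * π) := by gcongr
    _ = |s - t| := by
      rw [Int.cast_zero, sub_zero, abs_mul, abs_of_pos (inv_pos.2 hp)]
      field_simp

theorem lip_coe {C : ℝ≥0} {α : Circ → ℝ} (h : LipschitzWith C α) :
    LipschitzWith C (fun t : ℝ => α (t : Circ)) := by
  refine LipschitzWith.of_dist_le_mul fun s t => ?_
  refine (h.dist_le_mul _ _).trans ?_
  rw [Real.dist_eq s t]
  gcongr
  exact coe_dist_le s t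

theorem bint_integrable {C C' : ℝ≥0} {α β : Circ → ℝ} (hα : LipschitzWith C α)
    (hβ : LipschitzWith C' β) (x y : ℝ) :
    IntervalIntegrable (fun t : ℝ => α (t : Circ) * deriv (fun t : ℝ => β (t : Circ)) t)
      volume x y := by
  have h1 : IntervalIntegrable (deriv (fun t : ℝ => β (t : Circ))) volume x y := by
    rw [intervalIntegrable_iff]
    refine Measure.integrableOn_of_bounded (M := C') ?_ ?_ ?_
    · simp [uIoc]
    · exact (measurable_deriv _).aestronglyMeasurable
    · exact Eventually.of_forall fun t => norm_deriv_le_of_lipschitz (lip_coe hβ)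
  exact h1.continuousOn_mul (lip_coe hα).continuous.continuousOn

theorem bint_sum {ι : Type*} (s : Finset ι) (α : ι → Circ → ℝ) (β : Circ → ℝ) {C' : ℝ≥0}
    (hα : ∀ i ∈ s, ∃ C, LipschitzWith C (α i)) (hβ : LipschitzWith C' β) :
    bint (fun t => ∑ i ∈ s, α i (t : Circ)) (fun t => β (t : Circ)) =
      ∑ i ∈ s, bint (fun t => α i (t : Circ)) (fun t => β (t : Circ)) := by
  unfold bint
  simp only [Finset.sum_mul]
  rw [intervalIntegral.integral_finsetSum]
  intro i hi
  obtain ⟨C, hC⟩ := hα i hi
  exact bint_integrable hC hβ _ _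

/-- tent functions -/
def tent (θ : Circ) (r : ℝ) (t : Circ) : ℝ := max (r - dist t θ) 0

theorem tent_lip (θ : Circ) (r : ℝ) : LipschitzWith 1 (tent θ r) := by
  have h : LipschitzWith 1 (fun t : Circ => r - dist t θ) := by
    refine LipschitzWith.of_dist_le_mul fun s t => ?_
    rw [Real.dist_eq, NNReal.coe_one, one_mul]
    have : r - dist s θ - (r - dist t θ) = -(dist s θ - dist t θ) := by ring
    rw [this, abs_neg]
    exact abs_dist_sub_le s t θ
  exact h.max_const 0

theorem tent_zero (θ : Circ) (r : ℝ) (t : Circ) (h : r ≤ dist t θ) : tent θ r t = 0 :=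
  max_eq_right (by linarith)

theorem dist_lip (c : Circ) : LipschitzWith 1 (fun t : Circ => dist t c) :=
  LipschitzWith.dist_left c

theorem norm_small {x : ℝ} (h : |x| ≤ π) : ‖(x : Circ)‖ = |x| := by
  rw [AddCircle.norm_coe_eq_abs_iff (2 * π) (by positivity)]
  rw [abs_of_pos (by positivity : (0 : ℝ) < 2 * π)]
  linarith

theorem bint_tent (x r : ℝ) (hr : 0 < r) (hr2 : r ≤ π / 2) :
    0 < bint (fun t => tent (x : Circ) r (t : Circ))
      (fun t => dist (t : Circ) ((x - π / 2 : ℝ) : Circ)) := by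
  set f : ℝ → ℝ := fun t => dist (t : Circ) ((x - π / 2 : ℝ) : Circ) with hf
  set a : ℝ → ℝ := fun t => tent (x : Circ) r (t : Circ) with ha
  have hpf : Periodic f (2 * π) := fun t => by
    simp only [hf, AddCircle.coe_add_period]
  have hpa : Periodic a (2 * π) := fun t => by
    simp only [ha, AddCircle.coe_add_period]
  have hpd : Periodic (deriv f) (2 * π) := fun t => by
    rw [← deriv_comp_add_const]
    congr 1
    ext s
    exact hpf s
  have hp : Periodic (fun t => a t * deriv f t) (2 * π) := fun t => by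
    simp only [hpa t, hpd t]
  have e1 : bint a f = ∫ t in (x - π)..(x + π), a t * deriv f t := by
    unfold bint
    have := hp.intervalIntegral_add_eq 0 (x - π)
    rw [zero_add] at this
    rw [this]
    congr 1
    ring
  rw [e1]
  have hpi := Real.pi_pos
  have e2 : ∫ t in (x - π)..(x + π), a t * deriv f t = ∫ t in (x - π)..(x + π), a t := by
    refine intervalIntegral.integral_congr fun t ht => ?_
    rw [uIcc_of_le (by linarith)] at ht
    have habs : |t - x| ≤ π := by
      rw [abs_le]; constructor <;> linarith [ht.1, ht.2]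
    show a t * deriv f t = a t
    rcases lt_or_ge |t - x| (π / 2) with h | h
    · have : HasDerivAt f 1 t := by
        have h3 : HasDerivAt (fun t => t - (x - π / 2)) 1 t := (hasDerivAt_id t).sub_const _
        refine h3.congr_of_eventuallyEq ?_
        have h4 : Ioo (x - π / 2) (x + π / 2) ∈ 𝓝 t := by
          refine Ioo_mem_nhds ?_ ?_ <;> rw [abs_lt] at h <;> linarith [h.1, h.2]
        filter_upwards [h4] with s hs
        simp only [hf]
        rw [dist_eq_norm, ← AddCircle.coe_sub, norm_small, abs_of_nonneg]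
        · linarith [hs.1]
        · rw [abs_le]; constructor <;> linarith [hs.1, hs.2]
      rw [this.deriv, mul_one]
    · have : a t = 0 := by
        simp only [ha]
        refine tent_zero _ _ _ ?_
        rw [dist_eq_norm, ← AddCircle.coe_sub, norm_small habs]
        linarith
      rw [this, zero_mul]
  rw [e2]
  have hac : Continuous a := (lip_coe (tent_lip (x : Circ) r)).continuous
  have h0 : ∫ _t in (x - π)..(x + π), (0 : ℝ) < ∫ t in (x - π)..(x + π), a t := by
    refine intervalIntegral.integral_lt_integral_of_continuousOn_of_le_of_exists_lt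
      (by linarith) continuousOn_const hac.continuousOn (fun t _ => le_max_right _ _)
      ⟨x, ⟨by linarith, by linarith⟩, ?_⟩
    simp only [ha, tent, dist_self, sub_zero]
    exact lt_max_of_lt_left hr
  simpa using h0

/-- the local form of Stokes' theorem at one point -/
def Wl {M : Type} [MetricSpace M] [MeasurableSpace M] {μ : Measure M} {b : Circ → M}
    (S : Surf M μ b) (θ : Circ) (η ε : ℝ) : Prop :=
  ∀ (F g : M → ℝ) (K K' C C' : ℝ≥0),
      LipschitzWith K F → LipschitzWith K' g → LipschitzWith C (fun t => F (b t)) →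
      LipschitzWith C' (fun t => g (b t)) → (∀ t, η ≤ dist t θ → F (b t) = 0) →
      ∫ x, S.jac F g x ∂μ = ε * bint (fun t => F (b (t : Circ))) (fun t => g (b (t : Circ)))

theorem Wl.unique {M : Type} [MetricSpace M] [MeasurableSpace M] {μ : Measure M} {b : Circ → M}
    {S : Surf M μ b} (hb : ∀ s t, dist s t ≤ dist (b s) (b t)) {θ : Circ} {η ε η' ε' : ℝ}
    (hη : 0 < η) (hη' : 0 < η') (h : Wl S θ η ε) (h' : Wl S θ η' ε') : ε = ε' := by
  obtain ⟨x, rfl⟩ : ∃ x : ℝ, (x : Circ) = θ := QuotientAddGroup.mk_surjective θ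
  have hpi := Real.pi_pos
  set r := min (min η η') (π / 2) with hr
  have hr0 : 0 < r := lt_min (lt_min hη hη') (by positivity)
  have hr1 : r ≤ η := (min_le_left _ _).trans (min_le_left _ _)
  have hr2 : r ≤ η' := (min_le_left _ _).trans (min_le_right _ _)
  have hr3 : r ≤ π / 2 := min_le_right _ _
  obtain ⟨F, hF, hF'⟩ := ext_circ b hb (tent (x : Circ) r) 1 (tent_lip _ _)
  obtain ⟨g, hg, hg'⟩ := ext_circ b hb (fun t => dist t ((x - π / 2 : ℝ) : Circ)) 1 (dist_lip _)
  have hFb : LipschitzWith 1 (fun t => F (b t)) := by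
    simp only [hF']; exact tent_lip _ _
  have hgb : LipschitzWith 1 (fun t => g (b t)) := by
    simp only [hg']; exact dist_lip _
  have e1 := h F g 1 1 1 1 hF hg hFb hgb (fun t ht => by
    rw [hF']; exact tent_zero _ _ _ (hr1.trans ht))
  have e2 := h' F g 1 1 1 1 hF hg hFb hgb (fun t ht => by
    rw [hF']; exact tent_zero _ _ _ (hr2.trans ht))
  have hpos := bint_tent x r hr0 hr3
  simp only [hF', hg'] at e1 e2
  exact mul_right_cancel₀ hpos.ne' (e1.symm.trans e2)

theorem Wl.move {M : Type} [MetricSpace M] [MeasurableSpace M] {μ : Measure M} {b : Circ → M}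
    {S : Surf M μ b} {θ θ' : Circ} {η ε : ℝ} (h : Wl S θ η ε) : Wl S θ' (η - dist θ θ') ε := by
  intro F g K K' C C' h1 h2 h3 h4 h5
  refine h F g K K' C C' h1 h2 h3 h4 fun t ht => h5 t ?_
  have := dist_triangle_right t θ θ'
  linarith

theorem stStokes (hL : StLoc) (hZ : StZero) (hJ : StJac) (hR : StRad) (hP : StPart) :
    StStokes := by
  intro M _ _ _ _ μ b S hbc hb
  have : Fact (0 < 2 * π) := ⟨by positivity⟩
  choose η ε hη hε hW using hL M μ b S hbc hb
  have hW : ∀ θ, Wl S θ (η θ) (ε θ) := fun θ F g K K' C C' => hW θ F g K K' C C'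
  -- `ε` is locally constant
  have hloc : IsLocallyConstant ε := by
    rw [IsLocallyConstant.iff_eventually_eq]
    intro θ
    filter_upwards [ball_mem_nhds θ (hη θ)] with θ' hθ'
    rw [mem_ball, dist_comm] at hθ'
    exact (Wl.unique hb (hη θ') (sub_pos.2 hθ') (hW θ') (hW θ).move)
  have hconst : ∀ θ, ε θ = ε 0 := fun θ => hloc.apply_eq_of_preconnectedSpace θ 0
  refine ⟨ε 0, hε 0, ?_⟩
  intro F g K K' C C' hF hg hFb hgb
  obtain ⟨s, -, hs⟩ := (isCompact_univ (X := Circ)).elim_nhds_subcover (fun θ => ball θ (η θ))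
    (fun θ _ => ball_mem_nhds θ (hη θ))
  obtain ⟨ρ, R, D, h1, h2, h3, h4, h5, h6⟩ := hP Circ s.card
    (fun i => ball (s.equivFin.symm i : Circ) (η (s.equivFin.symm i : Circ)))
    (fun i => isOpen_ball) (fun x => by
      have := hs (mem_univ x)
      rw [mem_iUnion₂] at this
      obtain ⟨y, hy, hxy⟩ := this
      exact ⟨s.equivFin ⟨y, hy⟩, by simpa using hxy⟩)
  obtain ⟨A, hA⟩ := lip_bdd hFb
  have hbd : ∀ i x, |ρ i x| ≤ (1 : ℝ≥0) := fun i x => by
    rw [abs_of_nonneg (h2 i x).1]; exact_mod_cast (h2 i x).2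
  have hα : ∀ i, LipschitzWith (1 * C + A * R) (fun t => ρ i t * F (b t)) := fun i =>
    lip_mul (h1 i) hFb (hbd i) hA
  choose G hG1 hG2 using fun i => ext_circ b hb (fun t => ρ i t * F (b t)) _ (hα i)
  obtain ⟨⟨L, hL'⟩, hsum⟩ := int_sum hJ hR S Finset.univ G (fun i _ => ⟨_, hG1 i⟩) hg
  -- the remainder
  have hrem : LipschitzWith (K + L) (fun x => F x - ∑ i, G i x) := hF.sub hL'
  have hGs : ∀ t, ∑ i, G i (b t) = F (b t) := fun t => by
    simp only [hG2]
    rw [← Finset.sum_mul, h3 t, one_mul]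
  have hzero := hZ M μ b S (fun x => F x - ∑ i, G i x) g _ K' hrem hg (fun t => by
    rw [hGs t, sub_self])
  have hadd := int_add hJ hR S hrem hL' hg
  simp only [sub_add_cancel] at hadd
  rw [hadd, hzero, zero_add, hsum]
  have hGi : ∀ i, ∫ x, S.jac (G i) g x ∂μ =
      ε 0 * bint (fun t => ρ i (t : Circ) * F (b (t : Circ))) (fun t => g (b (t : Circ))) := by
    intro i
    have hGb : LipschitzWith (1 * C + A * R) (fun t => G i (b t)) := by
      simp only [hG2]; exact hα i
    have := hW (s.equivFin.symm i : Circ) (G i) g _ _ _ _ (hG1 i) hg hGb hgb (fun t ht => by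
      rw [hG2, h6 i t, zero_mul]
      intro hD
      have := h5 i hD
      rw [mem_ball] at this
      linarith)
    rw [this, hconst]
    simp only [hG2]
  rw [Finset.sum_congr rfl fun i _ => hGi i, ← Finset.mul_sum]
  congr 1
  rw [← bint_sum Finset.univ (fun i t => ρ i t * F (b t)) (fun t => g (b t))
    (fun i _ => ⟨_, hα i⟩) hgb]
  congr 1
  ext t
  rw [← Finset.sum_mul, h3, one_mul]

end Pool.Agent.Y944.FA
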